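import Pool.Agent.Helper91.PU.Defs

/-!
The unfolded Banach-Mazur games `G(R)`, and uniformization up to meager sets: definitions.
-/

set_option autoImplicit false

namespace Pool.Agent.Helper73.GF

open Set Filter Topology Pool.Agent.Helper91.PU

/-- projective uniformization up to meager sets -/
def UM : Prop :=
  ∀ R : Set (Bs × Bs), Proj (Bs × Bs) R → ∀ A : Set Bs, MeasurableSet A → ¬ IsMeagre A →
    ∃ B ⊆ A, MeasurableSet B ∧ ¬ IsMeagre B ∧ (B ∩ Prod.fst '' R = ∅ ∨
      (B ⊆ Prod.fst '' R ∧ ∃ f : B → Bs, Measurable f ∧ ∀ x : B, ((x : Bs), f x) ∈ R))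

/-- the finite sequence played in the first `n` rounds, if the first player plays `u 0, u 1, ...`
and the second player plays `v 0, v 1, ...` -/
def pos (u v : ℕ → List ℕ) : ℕ → List ℕ
  | 0 => []
  | n + 1 => pos u v n ++ u n ++ v n

/-- the point of the Baire space which the two players build -/
def outc (u v : ℕ → List ℕ) : Bs := fun i => (pos u v (i + 1)).getD i 0

/-- the list `m (n - 1), ..., m 0` of the first `n` moves (the last one first) -/
def hist {α : Type} (m : ℕ → α) : ℕ → List α
  | 0 => []
  | n + 1 => m n :: hist m n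

/-- The first player has a winning strategy in the game `G(R)`: in round `n` the first player plays
a nonempty finite sequence `u n`, then the second player plays a nonempty finite sequence and a
number, `(m n).1` and `(m n).2`; the second player wins if `(x, y) ∈ R`, where `x` is the
concatenation of the finite sequences and `y` the sequence of the numbers `(m n).2`. -/
def WinI (R : Set (Bs × Bs)) : Prop :=
  ∃ σ : List (List ℕ × ℕ) → List ℕ, (∀ h, σ h ≠ []) ∧
    ∀ m : ℕ → List ℕ × ℕ, (∀ n, (m n).1 ≠ []) →
      (outc (fun n => σ (hist m n)) (fun n => (m n).1), fun n => (m n).2) ∉ R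

/-- the second player has a winning strategy in the game `G(R)` -/
def WinII (R : Set (Bs × Bs)) : Prop :=
  ∃ τ : List (List ℕ) → List ℕ × ℕ, (∀ h, (τ h).1 ≠ []) ∧
    ∀ u : ℕ → List ℕ, (∀ n, u n ≠ []) →
      (outc u (fun n => (τ (hist u (n + 1))).1), fun n => (τ (hist u (n + 1))).2) ∈ R

/-- the game `G(R)` is determined -/
def Determined (R : Set (Bs × Bs)) : Prop := WinI R ∨ WinII R

/-- `S` is closed under finite changes -/
def Tail (S : Set Bs) : Prop := ∀ y z : Bs, (∃ n, ∀ m, n ≤ m → y m = z m) → y ∈ S → z ∈ S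

/-- `R` has a Borel uniformization up to a meager set -/
def Uz (R : Set (Bs × Bs)) : Prop :=
  ∃ f : Bs → Bs, Measurable f ∧ ∀ᶠ x in residual Bs, x ∈ Prod.fst '' R → (x, f x) ∈ R

end Pool.Agent.Helper73.GF
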