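import Pool.Agent.Helper73.GF.Defs
import Pool.Agent.Helper85.UG.Tail

/-!
The game form of Q1.
-/

set_option autoImplicit false

namespace Pool.Agent.Helper73.GF

open Set Filter Topology Pool.Agent.Helper91.PU

theorem pos_eq (u v : ℕ → List ℕ) (n : ℕ) : pos u v n = Pool.Agent.Helper85.UG.pos u v n := by
  induction n with
  | zero => rfl
  | succ n ih => rw [pos, Pool.Agent.Helper85.UG.pos, ih]

theorem hist_eq {α : Type} (m : ℕ → α) (n : ℕ) : hist m n = Pool.Agent.Helper85.UG.hist m n := by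
  induction n with
  | zero => rfl
  | succ n ih => rw [hist, Pool.Agent.Helper85.UG.hist, ih]

theorem outc_eq (u v : ℕ → List ℕ) : outc u v = Pool.Agent.Helper85.UG.outc u v := by
  funext i
  rw [outc, Pool.Agent.Helper85.UG.outc, pos_eq]

theorem determined_iff (R : Set (Bs × Bs)) :
    Determined R ↔ Pool.Agent.Helper85.UG.WinI R ∨ Pool.Agent.Helper85.UG.WinII R := by
  unfold Determined WinI WinII Pool.Agent.Helper85.UG.WinI Pool.Agent.Helper85.UG.WinII
  simp only [outc_eq, hist_eq]

/-- (1) The hypothesis of Q1: all projective sets have the Baire property. (2) The conclusion of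
Q1: projective uniformization up to meager sets. -/
theorem main :
    -- (1)
    ((PB ↔ ∀ A : Set Bs, Proj Bs A → Determined {p | p.1 ∈ A}) ∧
      (PB ↔ ∀ R : Set (Bs × Bs), Proj (Bs × Bs) R → (∀ x, IsClosed (sec R x)) → Determined R)) ∧
    -- (2)
    (UM ↔ ∀ R : Set (Bs × Bs), Proj (Bs × Bs) R → Determined R) ∧
    (UM ↔ PB ∧ ∀ R : Set (Bs × Bs), Proj (Bs × Bs) R → (∀ x, Tail (sec R x)) →
      (∀ᶠ x in residual Bs, IsMeagre (sec R x)) → Uz R) := by
  have h := Pool.Agent.Helper85.UG.pb_tfae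
  simp only [determined_iff]
  exact ⟨⟨h.out 0 1, h.out 0 2⟩, Pool.Agent.Helper85.UG.um_iff_det, Pool.Agent.Helper85.UG.um_iff_tail⟩

end Pool.Agent.Helper73.GF
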